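import Mathlib

set_option autoImplicit false
open Set Metric Topology Filter Relation

namespace Pool.Agent.H.MP_424fb5_gt

structure Sy (α : Type) where
  V : ℕ → Set α
  Ad : ℕ → α → α → Prop
  β : α → α
  fin : ∀ m, (V m).Finite
  mem : ∀ {m x y}, Ad m x y → x ∈ V m
  rf : ∀ {m x}, x ∈ V m → Ad m x x
  sy : ∀ {m x y}, Ad m x y → Ad m y x
  c2 : ∀ {m x y z}, Ad (m + 1) x y → Ad (m + 1) y z → Ad m (β x) (β z)

variable {α : Type} {s : Sy α}

lemma Sy.hom {m x y} (h : s.Ad (m + 1) x y) : s.Ad m (s.β x) (s.β y) :=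
  s.c2 h (s.rf (s.mem (s.sy h)))

lemma Sy.homi (t : ℕ) {m x y} (h : s.Ad (m + t) x y) : s.Ad m (s.β^[t] x) (s.β^[t] y) := by
  induction t generalizing x y with
  | zero => exact h
  | succ t ih => exact ih (s.hom h)

def Z (s : Sy α) : Type := {z : ℕ → α // ∀ m, z m ∈ s.V m ∧ s.β (z (m + 1)) = z m}

lemma Z.it (z : Z s) (m t : ℕ) : s.β^[t] (z.1 (m + t)) = z.1 m := by
  induction t with
  | zero => rfl
  | succ t ih => rw [Function.iterate_succ_apply, ← add_assoc, (z.2 _).2, ih]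

lemma Z.down {z w : Z s} {m n : ℕ} (h : m ≤ n) (k : s.Ad n (z.1 n) (w.1 n)) :
    s.Ad m (z.1 m) (w.1 m) := by
  obtain ⟨t, rfl⟩ := Nat.exists_eq_add_of_le h
  rw [← z.it m t, ← w.it m t]
  exact s.homi t k

structure Re (s : Sy α) {M : Type} [MetricSpace M] (q : Z s → M) : Prop where
  sur : Function.Surjective q
  a : ∀ ε > 0, ∃ m, ∀ z w : Z s, s.Ad m (z.1 m) (w.1 m) → dist (q z) (q w) < ε
  b : ∀ m, ∃ ε > 0, ∀ z w : Z s, dist (q z) (q w) < ε → s.Ad m (z.1 m) (w.1 m)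

lemma exists_re (s : Sy α) : ∃ (M : Type) (_ : MetricSpace M) (q : Z s → M), Re s q := by
  let U : ℕ → Set (Z s × Z s) := fun m => {p | s.Ad m (p.1.1 m) (p.2.1 m)}
  have hb : IsBasis (fun _ : ℕ => True) U := ⟨⟨0, trivial⟩, fun {i j} _ _ => ⟨max i j, trivial,
    fun p hp => ⟨Z.down (le_max_left _ _) hp, Z.down (le_max_right _ _) hp⟩⟩⟩
  let u : UniformSpace (Z s) := UniformSpace.ofCore (UniformSpace.Core.mkOfBasis hb.filterBasis
    (by rintro _ ⟨m, -, rfl⟩ x; exact s.rf (x.2 m).1)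
    (by rintro _ ⟨m, -, rfl⟩; exact ⟨U m, ⟨m, trivial, rfl⟩, fun p hp => s.sy hp⟩)
    (by
      rintro _ ⟨m, -, rfl⟩
      refine ⟨U (m + 1), ⟨m + 1, trivial, rfl⟩, ?_⟩
      rintro ⟨x, z⟩ ⟨y, h1, h2⟩
      have := s.c2 h1 h2
      rwa [(x.2 m).2, (z.2 m).2] at this))
  have hu : (@uniformity _ u).HasBasis (fun _ : ℕ => True) U := hb.hasBasis
  have : IsCountablyGenerated (@uniformity _ u) := hu.isCountablyGenerated
  let d : PseudoMetricSpace (Z s) := UniformSpace.pseudoMetricSpace (Z s)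
  refine ⟨SeparationQuotient (Z s), inferInstance, SeparationQuotient.mk,
    SeparationQuotient.surjective_mk, fun ε hε => ?_, fun m => ?_⟩
  · obtain ⟨m, -, hm⟩ := hu.mem_iff.1 (dist_mem_uniformity hε)
    exact ⟨m, fun z w h => hm (show (z, w) ∈ U m from h)⟩
  · obtain ⟨ε, h1, h2⟩ := Metric.mem_uniformity_dist.1 (hu.mem_of_mem (i := m) trivial)
    exact ⟨ε, h1, fun z w h => h2 h⟩

def Cn (R : α → α → Prop) (S : Set α) : Prop :=
  ∀ x ∈ S, ∀ y ∈ S, ReflTransGen (fun a b => a ∈ S ∧ b ∈ S ∧ R a b) x y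

lemma Cn.ind {R : α → α → Prop} {S : Set α} (h : Cn R S) (P : α → Prop)
    (k : ∀ a ∈ S, ∀ b ∈ S, R a b → P a → P b) {x y : α} (hx : x ∈ S) (hy : y ∈ S) (p : P x) :
    P y := by
  have := h x hx y hy
  clear hy
  induction this with
  | refl => exact p
  | tail _ l ih => exact k _ l.1 _ l.2.1 l.2.2 ih

lemma Cn.image {R R' : α → α → Prop} {S : Set α} (h : Cn R S) (f : α → α)
    (k : ∀ a b, R a b → R' (f a) (f b)) : Cn R' (f '' S) := by
  rintro _ ⟨x, hx, rfl⟩ _ ⟨y, hy, rfl⟩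
  exact (h x hx y hy).lift f fun a b l => ⟨⟨a, l.1, rfl⟩, ⟨b, l.2.1, rfl⟩, k a b l.2.2⟩

variable {M : Type} [MetricSpace M] {q : Z s → M}

def pj (q : Z s → M) (L : Set M) (m : ℕ) : Set α := {x | ∃ z : Z s, q z ∈ L ∧ z.1 m = x}

lemma pj_sub {L : Set M} {m : ℕ} : pj q L m ⊆ s.V m := by
  rintro _ ⟨z, -, rfl⟩; exact (z.2 m).1

lemma pj_it {L : Set M} {m t : ℕ} {x : α} (h : x ∈ pj q L (m + t)) : s.β^[t] x ∈ pj q L m := by
  obtain ⟨z, h, rfl⟩ := h
  exact ⟨z, h, (z.it m t).symm⟩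

lemma Re.ad (h : Re s q) {z w : Z s} (e : q z = q w) (m : ℕ) : s.Ad m (z.1 m) (w.1 m) := by
  obtain ⟨ε, h1, h2⟩ := h.b m
  exact h2 z w (by rwa [e, dist_self])

lemma Re.eq (h : Re s q) {z w : Z s} (e : ∀ m, s.Ad m (z.1 m) (w.1 m)) : q z = q w :=
  eq_of_forall_dist_le fun ε hε => let ⟨m, hm⟩ := h.a ε hε; (hm z w (e m)).le

lemma Re.pj_cn (h : Re s q) {L : Set M} (hL : IsPreconnected L) (m : ℕ) :
    Cn (s.Ad m) (pj q L m) := by
  rintro _ ⟨z, hz, rfl⟩ _ ⟨w, hw, rfl⟩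
  obtain ⟨ε, h1, h2⟩ := h.b m
  refine hL.induction₂' (fun x y => ∀ z w : Z s, q z = x → q w = y → ReflTransGen
    (fun a b => a ∈ pj q L m ∧ b ∈ pj q L m ∧ s.Ad m a b) (z.1 m) (w.1 m)) ?_ ?_ hz hw z w rfl rfl
  · intro x hx
    filter_upwards [self_mem_nhdsWithin, nhdsWithin_le_nhds (ball_mem_nhds x h1)] with y k1 k2
    constructor
    · rintro z w rfl rfl
      exact .single ⟨⟨z, hx, rfl⟩, ⟨w, k1, rfl⟩, h2 z w (mem_ball'.1 k2)⟩
    · rintro z w rfl rfl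
      exact .single ⟨⟨z, k1, rfl⟩, ⟨w, hx, rfl⟩, h2 z w (mem_ball.1 k2)⟩
  · intro a b c _ _ _ k1 k2 z w e1 e2
    obtain ⟨y, rfl⟩ := h.sur b
    exact (k1 z y e1 rfl).trans (k2 y w rfl e2)

def th (q : Z s → M) (b : ℕ) (S : ℕ → Set α) : Set M := q '' {z | ∀ n, z.1 (b + n) ∈ S n}

lemma ulim {γ : Type} (F : Ultrafilter γ) {S : Set α} (hS : S.Finite) {f : γ → α}
    (h : ∀ᶠ x in F, f x ∈ S) : ∃ a ∈ S, ∀ᶠ x in F, f x = a := by
  have : (⋃ a ∈ S, {x | f x = a}) ∈ F := mem_of_superset h fun x hx => mem_biUnion hx rfl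
  exact (Ultrafilter.finite_biUnion_mem_iff hS).1 this

lemma Re.cpt (h : Re s q) (b : ℕ) (S : ℕ → Set α) : IsCompact (th q b S) := by
  classical
  refine isCompact_iff_ultrafilter_le_nhds.2 fun F hF => ?_
  have : ∀ x, ∃ z : Z s, q z = x ∧ (x ∈ th q b S → ∀ n, z.1 (b + n) ∈ S n) := fun x => by
    by_cases k : x ∈ th q b S
    · obtain ⟨z, k1, k2⟩ := k
      exact ⟨z, k2, fun _ => k1⟩
    · obtain ⟨z, k2⟩ := h.sur x
      exact ⟨z, k2, fun l => absurd l k⟩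
  choose r r1 r2 using this
  choose a a1 a2 using fun m => ulim F (s.fin m) (f := fun x => (r x).1 m)
    (Eventually.of_forall fun x => ((r x).2 m).1)
  refine ⟨q ⟨a, fun m => ⟨a1 m, ?_⟩⟩, ⟨_, fun n => ?_, rfl⟩, Metric.nhds_basis_ball.ge_iff.2 ?_⟩
  · obtain ⟨x, k1, k2⟩ := ((a2 m).and (a2 (m + 1))).exists
    rw [← k1, ← k2, ((r x).2 m).2]
  · obtain ⟨x, k1, k2⟩ := ((a2 (b + n)).and (le_principal_iff.1 hF)).exists
    show a (b + n) ∈ S n
    rw [← k1]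
    exact r2 x k2 n
  · intro ε hε
    obtain ⟨m, hm⟩ := h.a ε hε
    filter_upwards [a2 m] with x hx
    rw [← r1 x]
    exact hm _ _ (by rw [hx]; exact s.rf (a1 m))

lemma lift {b : ℕ} {S : ℕ → Set α} (h1 : ∀ n, S n ⊆ s.V (b + n))
    (h2 : ∀ n, s.β '' S (n + 1) = S n) {m : ℕ}
    {x : α} (hx : x ∈ S m) : ∃ z : Z s, (∀ n, z.1 (b + n) ∈ S n) ∧ z.1 (b + m) = x := by
  have : ∀ n (y : S n), ∃ w : S (n + 1), s.β w = y := fun n y => by
    obtain ⟨w, k1, k2⟩ := (h2 n).symm.subset y.2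
    exact ⟨⟨w, k1⟩, k2⟩
  choose g hg using this
  let y : ∀ t, S (m + t) := fun t => Nat.rec ⟨x, hx⟩ (fun t w => g (m + t) w) t
  have y1 : ∀ t, s.β (y (t + 1)).1 = (y t).1 := fun t => hg (m + t) (y t)
  have dn : ∀ t n x, x ∈ S (n + t) → s.β^[t] x ∈ S n := fun t => by
    induction t with
    | zero => exact fun _ _ h => h
    | succ t ih => exact fun n x h => ih n _ ((h2 _).subset ⟨x, h, rfl⟩)
  refine ⟨⟨fun n => s.β^[b + m] (y n).1, fun n => ⟨s.mem (s.homi (b + m) (s.rf ?_)), ?_⟩⟩,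
    fun n => dn _ n _ ?_, ?_⟩
  · rw [show n + (b + m) = b + (m + n) by omega]
    exact h1 _ (y n).2
  · rw [← Function.iterate_succ_apply' s.β, Function.iterate_succ_apply, y1]
  · rw [show n + (b + m) = m + (b + n) by omega]
    exact (y _).2
  · have : ∀ t, s.β^[t] (y t).1 = x := fun t => by
      induction t with
      | zero => rfl
      | succ t ih => rw [Function.iterate_succ_apply, y1, ih]
    exact this _

lemma Re.th_pre (h : Re s q) {o : ℕ} {S : ℕ → Set α} (h1 : ∀ n, S n ⊆ s.V (o + n))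
    (h2 : ∀ n, s.β '' S (n + 1) = S n) (h3 : ∀ n, Cn (s.Ad (o + n)) (S n)) :
    IsPreconnected (th q o S) := by
  refine isPreconnected_closed_iff.2 ?_
  rintro a b ha hb c ⟨_, ⟨x, x1, rfl⟩, x2⟩ ⟨_, ⟨y, y1, rfl⟩, y2⟩
  by_contra k
  obtain ⟨δ, d1, d2⟩ := (show Disjoint (th q o S ∩ a) (th q o S ∩ b) from disjoint_left.2
    fun z z1 z2 => k ⟨z, z1.1, z1.2, z2.2⟩).exists_thickenings ((h.cpt o S).inter_right ha)
    ((h.cpt o S).inter_right hb).isClosed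
  obtain ⟨m, hm⟩ := h.a δ d1
  have key : ∀ z w : Z s, (∀ n, z.1 (o + n) ∈ S n) → (∀ n, w.1 (o + n) ∈ S n) →
      s.Ad (o + m) (z.1 (o + m)) (w.1 (o + m)) → q z ∈ a → q w ∉ b := fun z w z1 w1 l z2 w2 =>
    disjoint_left.1 d2 (self_subset_thickening d1 _ ⟨⟨z, z1, rfl⟩, z2⟩)
      (mem_thickening_iff.2 ⟨q w, ⟨⟨w, w1, rfl⟩, w2⟩, hm z w (Z.down (Nat.le_add_left _ _) l)⟩)
  obtain ⟨z, z1, z2, z3⟩ := (h3 m).ind
    (fun u => ∃ z : Z s, (∀ n, z.1 (o + n) ∈ S n) ∧ z.1 (o + m) = u ∧ q z ∈ a)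
    (fun u _ v hv l ⟨z, z1, z2, z3⟩ => by
      obtain ⟨w, w1, w2⟩ := lift h1 h2 hv
      exact ⟨w, w1, w2, (c ⟨w, w1, rfl⟩).resolve_right (key z w z1 w1 (by rwa [z2, w2]) z3)⟩)
    (x1 m) (y1 m) ⟨x, x1, rfl, x2⟩
  exact key z y z1 y1 (by rw [z2]; exact s.rf (y.2 _).1) z3 y2

lemma Re.th_sub (h : Re s q) {o : ℕ} {S : ℕ → Set α} {L : Set M} (hL : IsClosed L)
    (k : ∀ n, S n ⊆ pj q L (o + n)) : th q o S ⊆ L := by
  rintro _ ⟨z, hz, rfl⟩
  refine hL.closure_subset (Metric.mem_closure_iff.2 fun ε hε => ?_)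
  obtain ⟨m, hm⟩ := h.a ε hε
  obtain ⟨w, w1, w2⟩ := k m (hz m)
  exact ⟨q w, w1, hm z w (Z.down (Nat.le_add_left m o) (by rw [w2]; exact s.rf (z.2 _).1))⟩

lemma konig {J : ℕ → Set α} (π : α → α) (h1 : ∀ t, (J t).Finite) (h2 : ∀ t, (J t).Nonempty)
    (h3 : ∀ t, ∀ x ∈ J (t + 1), π x ∈ J t) : ∃ p : ℕ → α, ∀ t, p t ∈ J t ∧ π (p (t + 1)) = p t := by
  choose x hx using h2
  have dn : ∀ k t y, y ∈ J (t + k) → π^[k] y ∈ J t := fun k => by
    induction k with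
    | zero => exact fun _ _ h => h
    | succ k ih => exact fun t y h => ih t _ (h3 _ _ h)
  have ev : ∀ t, ∀ᶠ n in (hyperfilter ℕ : Filter ℕ), t ≤ n := fun t =>
    Nat.hyperfilter_le_atTop (eventually_ge_atTop t)
  choose p p1 p2 using fun t => ulim (hyperfilter ℕ) (h1 t) (f := fun n => π^[n - t] (x n))
    ((ev t).mono fun n hn => dn _ _ _ (by rw [Nat.add_sub_cancel' hn]; exact hx n))
  refine ⟨p, fun t => ⟨p1 t, ?_⟩⟩
  obtain ⟨n, k1, k2, k3⟩ := ((p2 t).and ((p2 (t + 1)).and (ev (t + 1)))).exists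
  rw [← k1, ← k2, ← Function.iterate_succ_apply' π]
  congr 1
  omega

def Wk (R : α → α → Prop) (S : Set α) (a b : α) (F : Set α) : Prop :=
  ∃ (N : ℕ) (w : ℕ → α), w 0 = a ∧ (∀ n, N ≤ n → w n = b) ∧ (∀ n, w n ∈ S) ∧
    (∀ n, R (w n) (w (n + 1))) ∧ ∀ x ∈ F, ∃ n ≤ N, w n = x

lemma Wk.trans {R : α → α → Prop} {S F G : Set α} {a b c : α} (h : Wk R S a b F)
    (k : Wk R S b c G) : Wk R S a c (F ∪ G) := by
  obtain ⟨N, w, w1, w2, w3, w4, w5⟩ := h
  obtain ⟨N', v, v1, v2, v3, v4, v5⟩ := k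
  refine ⟨N + N', fun n => if n ≤ N then w n else v (n - N), by simpa using w1, fun n hn => ?_,
    fun n => ?_, fun n => ?_, ?_⟩
  · dsimp only
    split_ifs with l
    · rw [w2 n (by omega), ← v1]; exact v2 0 (by omega)
    · exact v2 _ (by omega)
  · dsimp only
    split_ifs
    exacts [w3 _, v3 _]
  · dsimp only
    split_ifs with l1 l2 l2
    · exact w4 n
    · rw [w2 n (by omega), ← v1, show n + 1 - N = 0 + 1 by omega]; exact v4 0
    · omega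
    · rw [show n + 1 - N = n - N + 1 by omega]; exact v4 _
  · rintro x (hx | hx)
    · obtain ⟨n, n1, n2⟩ := w5 x hx
      exact ⟨n, by omega, (if_pos n1).trans n2⟩
    · obtain ⟨n, n1, n2⟩ := v5 x hx
      refine ⟨N + n, by omega, ?_⟩
      dsimp only
      split_ifs with l
      · rw [w2 _ (by omega), ← v1, ← n2, show n = 0 by omega]
      · rw [Nat.add_sub_cancel_left, n2]

lemma walk {R : α → α → Prop} {S : Set α} (hS : S.Finite) (hc : Cn R S) (hr : ∀ x ∈ S, R x x)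
    {a : α} (ha : a ∈ S) : Wk R S a a S := by
  have one : ∀ x ∈ S, Wk R S x x {x} := fun x hx =>
    ⟨0, fun _ => x, rfl, fun _ _ => rfl, fun _ => hx, fun _ => hr x hx, fun y hy =>
      ⟨0, le_rfl, hy.symm⟩⟩
  have mono : ∀ {x y F G}, G ⊆ F → Wk R S x y F → Wk R S x y G :=
    fun k ⟨N, w, w1, w2, w3, w4, w5⟩ => ⟨N, w, w1, w2, w3, w4, fun x hx => w5 x (k hx)⟩
  have two : ∀ x ∈ S, ∀ y ∈ S, Wk R S x y ∅ := fun x hx y hy =>
    hc.ind (fun y => Wk R S x y ∅) (fun u hu v hv l k => mono (empty_subset _) (k.trans (G := ∅)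
      ⟨1, fun n => if n = 0 then u else v, rfl, fun n hn => if_neg (by omega), fun n => by
        dsimp only
        split_ifs
        exacts [hu, hv], fun n => by
        dsimp only
        rw [if_neg n.succ_ne_zero]
        split_ifs
        exacts [l, hr v hv], fun _ l => l.elim⟩)) hx hy (mono (empty_subset _) (one x hx))
  have : ∀ F : Set α, F.Finite → F ⊆ S → Wk R S a a F := fun F hF => by
    induction F, hF using Set.Finite.induction_on with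
    | empty => exact fun _ => two a ha a ha
    | @insert x F _ _ ih =>
      intro k
      have hx := k (mem_insert _ _)
      exact mono (fun y hy => hy.elim (fun l => Or.inl (Or.inr l)) fun l => Or.inl (Or.inl (Or.inl l)))
        ((((ih ((subset_insert _ _).trans k)).trans (two a ha x hx)).trans (one x hx)).trans
          (two x hx a ha))
  exact this S hS subset_rfl

end Pool.Agent.H.MP_424fb5_gt
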