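import Mathlib
import Pool.Agent.H.MP_424fb5_gt.A

set_option autoImplicit false
open Set Relation

namespace Pool.Agent.H.MP_424fb5_gt

inductive Lb : Type
  | lf (n : ℕ) : Lb
  | nd (a b : Lb) : Lb

def Lb.h (s : Bool) : Lb → Lb
  | .lf n => .lf n
  | .nd a b => cond s b a

def Lab (m : ℕ) : ℕ → Set Lb
  | 0 => Lb.lf '' Iic (3 * 2 ^ (m + 1))
  | d + 1 => image2 Lb.nd (Lab m d) (Lab m d)

lemma Lab_fin (m d : ℕ) : (Lab m d).Finite := by
  induction d with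
  | zero => exact (finite_Iic _).image _
  | succ d ih => exact ih.image2 _ ih

lemma Lab_ne (m d : ℕ) : (Lab m d).Nonempty := by
  induction d with
  | zero => exact ⟨_, 0, Nat.zero_le _, rfl⟩
  | succ d ih => exact ih.image2 ih

lemma Lab_h {m d : ℕ} {f : Lb} (s : Bool) (h : f ∈ Lab m (d + 1)) : f.h s ∈ Lab m d := by
  obtain ⟨a, ha, b, hb, rfl⟩ := h
  cases s
  exacts [ha, hb]

lemma h_nd (s : Bool) (f : Lb) : (Lb.nd f f).h s = f := by cases s <;> rfl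

inductive Vx : Type
  | r (s : Bool) : Vx
  | a (v : Vx) (f : Lb) : Vx
  | b (v w : Vx) (f g : Lb) (s : Bool) : Vx
  | c (v w : Vx) (f : Lb) (n : ℕ) (p : Vx) : Vx

abbrev Gm : Type := Vx × Vx × Lb × Lb
abbrev Ix : Type := Option Gm × List Lb

def ch (f : Lb) (j : Ix) : Ix := (j.1, f :: j.2)

def hm : Vx → Ix
  | .r _ => (none, [])
  | .a v f => ch f (hm v)
  | .b v w f g _ => (some (v, w, f, g), [])
  | .c v _ f _ _ => ch f (hm v)

def pr (s : Bool) (γ : Gm) (l : List Lb) : Ix :=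
  ((hm γ.1).1, l.map (Lb.h s) ++ cond s γ.2.2.2 γ.2.2.1 :: (hm γ.1).2)

inductive Anc (i : Ix) : Ix → Prop
  | rf : Anc i i
  | st (s : Bool) (γ : Gm) (l : List Lb) : Anc i (pr s γ l) → Anc i (some γ, l)

inductive CA (τ : Option Gm) : Option Gm → Prop
  | rf : CA τ τ
  | st (γ : Gm) : CA τ (hm γ.1).1 → CA τ (some γ)

def dp : Vx → ℕ
  | .r _ => 0
  | .a v _ => dp v
  | .b v _ _ _ _ => dp v + 1
  | .c v _ _ _ _ => dp v

def lv : Vx → ℕ
  | .r _ => 0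
  | .a v _ => lv v + 1
  | .b v _ _ _ _ => lv v + 1
  | .c v _ _ _ _ => lv v + 1

def dc (σ : Option Gm) : ℕ := σ.elim 0 fun γ => dp γ.1 + 1
def bl (σ : Option Gm) : ℕ := σ.elim 0 fun γ => lv γ.1 + 1

def be : Vx → Vx
  | .r s => .r s
  | .a v _ => v
  | .b v w _ _ s => cond s w v
  | .c _ _ _ _ p => p

def ou : Vx → Vx
  | .r s => .r s
  | .a v _ => v
  | .b v w _ _ s => cond s w v
  | .c v _ _ _ _ => v

lemma dp_eq (v : Vx) : dc (hm v).1 = dp v := by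
  induction v with
  | r => rfl
  | a v f ih => exact ih
  | b => rfl
  | c v w f n p ih => exact ih

lemma lv_eq (v : Vx) : bl (hm v).1 + (hm v).2.length = lv v := by
  induction v with
  | r => rfl
  | a v f ih => exact congrArg (· + 1) ih
  | b => rfl
  | c v w f n p ih => exact congrArg (· + 1) ih

lemma dp_le (v : Vx) : dp v ≤ lv v := by
  induction v with
  | r => exact le_rfl
  | a v f ih => exact ih.trans (Nat.le_succ _)
  | b v w f g s ih => exact Nat.succ_le_succ ih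
  | c v w f n p ih => exact ih.trans (Nat.le_succ _)

lemma dc_some (γ : Gm) : dc (some γ) = dc (hm γ.1).1 + 1 := by rw [dp_eq]; rfl

lemma dp_congr {v w : Vx} (h : hm v = hm w) : dp v = dp w := by rw [← dp_eq, h, dp_eq]

lemma Anc.trans {i j k : Ix} (h : Anc i j) (l : Anc j k) : Anc i k := by
  induction l with
  | rf => exact h
  | st s γ l _ ih => exact .st s γ l ih

lemma Anc.ca {i j : Ix} (h : Anc i j) : CA i.1 j.1 := by
  induction h with
  | rf => exact .rf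
  | st s γ l _ ih => exact .st γ ih

lemma CA.trans {i j k : Option Gm} (h : CA i j) (l : CA j k) : CA i k := by
  induction l with
  | rf => exact h
  | st γ _ ih => exact .st γ ih

lemma CA.le {τ σ : Option Gm} (h : CA τ σ) : τ = σ ∨ dc τ < dc σ ∧ bl τ < bl σ := by
  induction h with
  | rf => exact Or.inl rfl
  | st γ _ ih =>
    have h1 := dc_some γ
    have h2 := lv_eq γ.1
    have h3 : bl (some γ) = lv γ.1 + 1 := rfl
    right
    rcases ih with rfl | ih <;> omega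

lemma CA.inv {τ : Option Gm} {γ : Gm} (h : CA τ (some γ)) : τ = some γ ∨ CA τ (hm γ.1).1 := by
  cases h with
  | rf => exact Or.inl rfl
  | st _ k => exact Or.inr k

lemma anc_ch {i q : Ix} {g : Lb} (h : Anc i (ch g q)) : ∃ f j, i = ch f j ∧ Anc j q ∧
    ∀ m, g ∈ Lab m (dc q.1) → f ∈ Lab m (dc j.1) := by
  generalize e : ch g q = x at h
  induction h generalizing g q with
  | rf => exact ⟨g, q, e.symm, .rf, fun _ h => h⟩
  | st s γ l _ ih =>
    obtain ⟨σ, l'⟩ := q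
    obtain ⟨rfl, rfl⟩ := Prod.mk.inj e
    obtain ⟨f, j, h1, h2, h3⟩ := ih (g := g.h s) (q := pr s γ l') rfl
    exact ⟨f, j, h1, .st s γ l' h2, fun m k => h3 m (Lab_h s (dc_some γ ▸ k))⟩

lemma anc_ch' {j q : Ix} {f g : Lb} (h : Anc (ch f j) (ch g q)) : Anc j q := by
  obtain ⟨f', j', e, k, -⟩ := anc_ch h
  obtain ⟨e1, e2⟩ := Prod.mk.inj e
  rwa [show j = j' from Prod.ext e1 (List.cons.inj e2).2]

lemma anc_lift {j q : Ix} {f : Lb} {m : ℕ} (h : Anc j q) (hf : f ∈ Lab m (dc j.1)) :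
    ∃ g ∈ Lab m (dc q.1), Anc (ch f j) (ch g q) := by
  induction h with
  | rf => exact ⟨f, hf, .rf⟩
  | st s γ l _ ih =>
    obtain ⟨g, g1, g2⟩ := ih
    refine ⟨.nd g g, dc_some γ ▸ mem_image2_of_mem g1 g1, .st s γ _ ?_⟩
    rwa [show pr s γ (.nd g g :: l) = ch ((Lb.nd g g).h s) (pr s γ l) from rfl, h_nd]

lemma anc_new {i : Ix} {v w : Vx} {f g : Lb} (h : Anc i (some (v, w, f, g), [])) :
    i = (some (v, w, f, g), []) ∨ Anc i (ch f (hm v)) ∨ Anc i (ch g (hm v)) := by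
  cases h with
  | rf => exact Or.inl rfl
  | st s _ _ k =>
    cases s
    exacts [Or.inr (Or.inl k), Or.inr (Or.inr k)]

structure Lv : Type where
  V : Set Vx
  H : Vx → Vx → Prop
  A : Vx → Vx → Prop

def Lv.Ad (G : Lv) (x y : Vx) : Prop := G.H x y ∨ G.A x y ∨ G.A y x

def Lv.K (G : Lv) (j : Ix) : Set Vx := {u | u ∈ G.V ∧ Anc j (hm u)}

def WS (G : Lv) (v w : Vx) (p : ℕ × (ℕ → Vx)) : Prop :=
  p.2 0 = v ∧ p.2 p.1 = w ∧ (∀ n, p.2 (n + 1) ∈ G.K (hm w)) ∧ (∀ n, G.Ad (p.2 n) (p.2 (n + 1))) ∧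
    (∀ n, G.Ad (p.2 n) (p.2 (n + 2))) ∧ ∀ x ∈ G.K (hm w), ∃ n ≤ p.1, p.2 n = x

instance : Nonempty Vx := ⟨.r true⟩

noncomputable def wk (G : Lv) (v w : Vx) : ℕ × (ℕ → Vx) := Classical.epsilon (WS G v w)

noncomputable def zv (G : Lv) (v w : Vx) (f : Lb) (n : ℕ) : Vx := .c v w f n ((wk G v w).2 n)

inductive NV (m : ℕ) (G : Lv) : Vx → Prop
  | a {v f} : v ∈ G.V → f ∈ Lab m (dp v) → NV m G (.a v f)
  | b {v w f g} (s) : G.H v w → f ∈ Lab m (dp v) → g ∈ Lab m (dp v) → NV m G (.b v w f g s)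
  | c {v w f n} : G.A v w → f ∈ Lab m (dp v) → n ≤ (wk G v w).1 →
      NV m G (.c v w f n ((wk G v w).2 n))

inductive NH (m : ℕ) (G : Lv) : Vx → Vx → Prop
  | rf {x} : NV m G x → NH m G x x
  | bb {v w f g} (s t) : G.H v w → f ∈ Lab m (dp v) → g ∈ Lab m (dp v) →
      NH m G (.b v w f g s) (.b v w f g t)
  | ac {v w f} : G.A v w → f ∈ Lab m (dp v) → NH m G (.a v f) (.c v w f 0 ((wk G v w).2 0))
  | ca {v w f} : G.A v w → f ∈ Lab m (dp v) → NH m G (.c v w f 0 ((wk G v w).2 0)) (.a v f)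
  | cc {v w f n} : G.A v w → f ∈ Lab m (dp v) → n + 1 ≤ (wk G v w).1 →
      NH m G (.c v w f n ((wk G v w).2 n)) (.c v w f (n + 1) ((wk G v w).2 (n + 1)))
  | cd {v w f n} : G.A v w → f ∈ Lab m (dp v) → n + 1 ≤ (wk G v w).1 →
      NH m G (.c v w f (n + 1) ((wk G v w).2 (n + 1))) (.c v w f n ((wk G v w).2 n))

inductive NA (m : ℕ) (G : Lv) : Vx → Vx → Prop
  | l {v w f g} : G.H v w → f ∈ Lab m (dp v) → g ∈ Lab m (dp v) →
      NA m G (.a v f) (.b v w f g false)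
  | r {v w f g} : G.H v w → f ∈ Lab m (dp v) → g ∈ Lab m (dp v) →
      NA m G (.a w g) (.b v w f g true)
  | z {v w f} : G.A v w → f ∈ Lab m (dp v) →
      NA m G (.c v w f (wk G v w).1 ((wk G v w).2 (wk G v w).1)) (.a w (.nd f f))

def nx (m : ℕ) (G : Lv) : Lv := ⟨{x | NV m G x}, NH m G, NA m G⟩

structure Inv (m : ℕ) (G : Lv) : Prop where
  fin : G.V.Finite
  lq : ∀ {u}, u ∈ G.V → lv u = m
  hr : ∀ {u}, u ∈ G.V → G.H u u
  hs : ∀ {x y}, G.H x y → G.H y x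
  hv : ∀ {x y}, G.H x y → x ∈ G.V
  hh : ∀ {x y}, G.H x y → hm x = hm y
  av : ∀ {x y}, G.A x y → x ∈ G.V ∧ y ∈ G.V
  ah : ∀ {x y}, G.A x y → ∃ s γ l, hm y = (some γ, l) ∧ hm x = pr s γ l
  cv : Cn G.Ad G.V
  ck : ∀ j, Cn G.Ad (G.K j)

variable {m : ℕ} {G : Lv}

lemma Inv.sy (h : Inv m G) {x y : Vx} (k : G.Ad x y) : G.Ad y x :=
  k.elim (fun l => Or.inl (h.hs l)) fun l => Or.inr l.symm

lemma Inv.anc (h : Inv m G) {v w : Vx} (k : G.A v w) : Anc (hm v) (hm w) := by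
  obtain ⟨s, γ, l, e1, e2⟩ := h.ah k
  rw [e1, e2]
  exact .st s γ l .rf

lemma Inv.dpa (h : Inv m G) {v w : Vx} (k : G.A v w) : dp w = dp v + 1 := by
  obtain ⟨s, γ, l, e1, e2⟩ := h.ah k
  rw [← dp_eq, ← dp_eq, e1, e2]
  exact dc_some γ

lemma Inv.ws (h : Inv m G) {v w : Vx} (k : G.A v w) : WS G v w (wk G v w) := by
  refine Classical.epsilon_spec (p := WS G v w) ?_
  have hw : w ∈ G.K (hm w) := ⟨(h.av k).2, .rf⟩
  obtain ⟨N, s, s1, s2, s3, s4, s5⟩ := walk (h.fin.subset fun _ l => l.1) (h.ck (hm w))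
    (fun x hx => Or.inl (h.hr hx.1)) hw
  refine ⟨(2 * N + 1, fun n => n.casesOn v fun n => s (n / 2)), rfl, s2 _ (by omega),
    fun n => s3 _, fun n => ?_, fun n => ?_, fun x hx => ?_⟩
  · cases n with
    | zero => show G.Ad v (s 0); rw [s1]; exact Or.inr (Or.inl k)
    | succ n =>
      show G.Ad (s (n / 2)) (s ((n + 1) / 2))
      rcases (by omega : (n + 1) / 2 = n / 2 ∨ (n + 1) / 2 = n / 2 + 1) with e | e <;> rw [e]
      exacts [Or.inl (h.hr (s3 _).1), s4 _]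
  · cases n with
    | zero => show G.Ad v (s 0); rw [s1]; exact Or.inr (Or.inl k)
    | succ n =>
      show G.Ad (s (n / 2)) (s ((n + 2) / 2))
      rw [show (n + 2) / 2 = n / 2 + 1 by omega]
      exact s4 _
  · obtain ⟨n, n1, n2⟩ := s5 x hx
    refine ⟨2 * n + 1, by show _ ≤ 2 * N + 1; omega, ?_⟩
    show s (2 * n / 2) = x
    rwa [show 2 * n / 2 = n by omega]

lemma Inv.wkK (h : Inv m G) {v w : Vx} (k : G.A v w) (n : ℕ) : (wk G v w).2 n ∈ G.K (hm v) := by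
  cases n with
  | zero => rw [(h.ws k).1]; exact ⟨(h.av k).1, .rf⟩
  | succ n => exact ⟨((h.ws k).2.2.1 n).1, (h.anc k).trans ((h.ws k).2.2.1 n).2⟩

lemma Inv.nd (h : Inv m G) {v w : Vx} (k : G.A v w) {f : Lb} (hf : f ∈ Lab m (dp v)) :
    Lb.nd f f ∈ Lab m (dp w) := h.dpa k ▸ mem_image2_of_mem hf hf

lemma Inv.nhv (h : Inv m G) {x y : Vx} (k : NH m G x y) : NV m G x ∧ hm x = hm y ∧ NH m G y x := by
  cases k with
  | rf k => exact ⟨k, rfl, .rf k⟩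
  | bb s t a b c => exact ⟨.b s a b c, rfl, .bb t s a b c⟩
  | ac a b => exact ⟨.a (h.av a).1 b, rfl, .ca a b⟩
  | ca a b => exact ⟨.c a b (Nat.zero_le _), rfl, .ac a b⟩
  | cc a b c => exact ⟨.c a b (Nat.le_of_succ_le c), rfl, .cd a b c⟩
  | cd a b c => exact ⟨.c a b c, rfl, .cc a b c⟩

lemma Inv.nav (h : Inv m G) {x y : Vx} (k : NA m G x y) : (NV m G x ∧ NV m G y) ∧
    ∃ s γ l, hm y = (some γ, l) ∧ hm x = pr s γ l := by
  cases k with
  | l a b c => exact ⟨⟨.a (h.hv a) b, .b _ a b c⟩, false, _, _, rfl, rfl⟩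
  | r a b c =>
    refine ⟨⟨.a (h.hv (h.hs a)) (dp_congr (h.hh a) ▸ c), .b _ a b c⟩, true, _, _, rfl, ?_⟩
    exact congrArg _ (h.hh a).symm
  | @z v w f a b =>
    obtain ⟨s, γ, l, e1, e2⟩ := h.ah a
    refine ⟨⟨.c a b le_rfl, .a (h.av a).2 (h.nd a b)⟩, s, γ, .nd f f :: l, ?_, ?_⟩
    · show ch _ _ = _
      rw [e1]; rfl
    · show ch _ _ = ch ((Lb.nd f f).h s) (pr s γ l)
      rw [e2, h_nd]

lemma Inv.conn (h : Inv m G) (P Q : Ix → Prop) (up : ∀ s γ l, Q (pr s γ l) → Q (some γ, l))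
    (lift : ∀ u ∈ G.V, P (hm u) → ∃ g ∈ Lab m (dp u), Q (ch g (hm u)))
    (dn : ∀ g q, Q (ch g q) → P q)
    (nw : ∀ v w f g, Q (some (v, w, f, g), []) → Q (ch f (hm v)) ∨ Q (ch g (hm v)))
    (hc : Cn G.Ad {u | u ∈ G.V ∧ P (hm u)}) :
    Cn (nx m G).Ad {u | u ∈ (nx m G).V ∧ Q (hm u)} := by
  let S := {u | u ∈ (nx m G).V ∧ Q (hm u)}
  let R := ReflTransGen fun a b => a ∈ S ∧ b ∈ S ∧ (nx m G).Ad a b
  have sy : ∀ {x y}, R x y → R y x := fun k => by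
    induction k with
    | refl => exact .refl
    | tail _ l ih => exact .head ⟨l.2.1, l.1,
        l.2.2.elim (fun l => Or.inl (h.nhv l).2.2) fun l => Or.inr l.symm⟩ ih
  have eH : ∀ {x y}, NH m G x y → Q (hm x) → R x y := fun k l =>
    .single ⟨⟨(h.nhv k).1, l⟩, ⟨(h.nhv (h.nhv k).2.2).1, (h.nhv k).2.1 ▸ l⟩, Or.inl k⟩
  have qA : ∀ {x y}, NA m G x y → Q (hm x) → Q (hm y) := fun k l => by
    obtain ⟨s, γ, l', e1, e2⟩ := (h.nav k).2
    rw [e1]
    exact up s γ l' (e2 ▸ l)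
  have eA : ∀ {x y}, NA m G x y → Q (hm x) → R x y := fun k l =>
    .single ⟨⟨(h.nav k).1.1, l⟩, ⟨(h.nav k).1.2, qA k l⟩, Or.inr (Or.inl k)⟩
  have zn : ∀ {v w f}, G.A v w → f ∈ Lab m (dp v) → Q (ch f (hm v)) → ∀ n ≤ (wk G v w).1,
      R (.a v f) (.c v w f n ((wk G v w).2 n)) := fun a b l n hn => by
    induction n with
    | zero => exact eH (.ac a b) l
    | succ n ih => exact (ih (Nat.le_of_succ_le hn)).trans (eH (.cc a b hn) l)
  have hH : ∀ {v w f g}, G.H v w → f ∈ Lab m (dp v) → g ∈ Lab m (dp w) → Q (ch f (hm v)) →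
      Q (ch g (hm w)) → R (.a v f) (.a w g) := fun a b c l1 l2 => by
    rw [← dp_congr (h.hh a)] at c
    exact ((eA (.l a b c) l1).trans (eH (.bb false true a b c) (qA (.l a b c) l1))).trans
      (sy (eA (.r a b c) l2))
  have hA : ∀ {v w f g}, G.A v w → f ∈ Lab m (dp v) → g ∈ Lab m (dp w) → Q (ch f (hm v)) →
      Q (ch g (hm w)) → R (.a v f) (.a w g) := fun a b c l1 l2 =>
    ((zn a b l1 _ le_rfl).trans (eA (.z a b) l1)).trans
      (hH (h.hr (h.av a).2) (h.nd a b) c (qA (.z a b) l1) l2)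
  have base : ∀ x ∈ S, ∃ v f, v ∈ G.V ∧ f ∈ Lab m (dp v) ∧ Q (ch f (hm v)) ∧ R (.a v f) x := by
    rintro x ⟨hx, l⟩
    cases hx with
    | a a b => exact ⟨_, _, a, b, l, .refl⟩
    | b s a b c =>
      rcases nw _ _ _ _ l with k | k
      · exact ⟨_, _, h.hv a, b, k, (eA (.l a b c) k).trans (eH (.bb _ _ a b c) l)⟩
      · rw [h.hh a] at k
        exact ⟨_, _, h.hv (h.hs a), dp_congr (h.hh a) ▸ c, k,
          (eA (.r a b c) k).trans (eH (.bb _ _ a b c) l)⟩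
    | c a b c => exact ⟨_, _, (h.av a).1, b, l, zn a b l _ c⟩
  intro x hx y hy
  obtain ⟨v, f, v1, v2, v3, v4⟩ := base x hx
  obtain ⟨w, g, w1, w2, w3, w4⟩ := base y hy
  refine ((sy v4).trans (hc.ind (fun w => ∀ g ∈ Lab m (dp w), Q (ch g (hm w)) → R (.a v f) (.a w g))
    (fun a ha b hb k ih g g1 g2 => ?_) ⟨v1, dn _ _ v3⟩ ⟨w1, dn _ _ w3⟩
    (fun g g1 g2 => hH (h.hr v1) v2 g1 v3 g2) g w2 w3)).trans w4
  obtain ⟨e, e1, e2⟩ := lift a ha.1 ha.2
  refine (ih e e1 e2).trans ?_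
  rcases k with k | k | k
  exacts [hH k e1 g1 e2 g2, hA k e1 g1 e2 g2, sy (hA k g1 e1 g2 e2)]

lemma Inv.next (h : Inv m G) : Inv (m + 1) (nx m G) where
  fin := by
    have f1 : {p : Vx × Lb | p.1 ∈ G.V ∧ p.2 ∈ Lab m (dp p.1)}.Finite :=
      (h.fin.biUnion fun v _ => (finite_singleton v).prod (Lab_fin m (dp v))).subset
        fun p hp => mem_biUnion hp.1 ⟨rfl, hp.2⟩
    refine ((f1.image fun p => Vx.a p.1 p.2).union ((((f1.prod f1).prod (toFinite univ)).image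
      fun p : (_ × _) × Bool => Vx.b p.1.1.1 p.1.2.1 p.1.1.2 p.1.2.2 p.2).union
      ((f1.prod h.fin).biUnion fun p _ => (finite_Iic (wk G p.1.1 p.2).1).image
        fun n => Vx.c p.1.1 p.2 p.1.2 n ((wk G p.1.1 p.2).2 n)))).subset fun x hx => ?_
    cases hx with
    | @a v f a b => exact Or.inl ⟨(v, f), ⟨a, b⟩, rfl⟩
    | @b v w f g s a b c => exact Or.inr (Or.inl ⟨(((v, f), (w, g)), s), ⟨⟨⟨h.hv a, b⟩,
        h.hv (h.hs a), dp_congr (h.hh a) ▸ c⟩, trivial⟩, rfl⟩)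
    | @c v w f n a b c => exact Or.inr (Or.inr (mem_biUnion (x := ((v, f), w))
        ⟨⟨(h.av a).1, b⟩, (h.av a).2⟩ ⟨n, c, rfl⟩))
  lq := fun k => by
    cases k with
    | a a => exact congrArg (· + 1) (h.lq a)
    | b s a => exact congrArg (· + 1) (h.lq (h.hv a))
    | c a => exact congrArg (· + 1) (h.lq (h.av a).1)
  hr := .rf
  hs := fun k => (h.nhv k).2.2
  hv := fun k => (h.nhv k).1
  hh := fun k => (h.nhv k).2.1
  av := fun k => (h.nav k).1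
  ah := fun k => (h.nav k).2
  cv := by
    simpa using h.conn (fun _ => True) (fun _ => True) (fun _ _ _ _ => trivial)
      (fun u _ _ => (Lab_ne m _).imp fun _ k => ⟨k, trivial⟩) (fun _ _ _ => trivial)
      (fun _ _ _ _ _ => Or.inl trivial) (by simpa using h.cv)
  ck := fun i => by
    by_cases k : ∃ f j, i = ch f j ∧ f ∈ Lab m (dc j.1)
    · obtain ⟨f, j, rfl, hf⟩ := k
      exact h.conn (Anc j) (Anc (ch f j)) (fun s γ l => .st s γ l)
        (fun u _ l => dp_eq u ▸ anc_lift l hf) (fun _ _ => anc_ch')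
        (fun _ _ _ _ l => (anc_new l).resolve_left fun e => List.cons_ne_nil _ _ (Prod.mk.inj e).2)
        (h.ck j)
    have no : ∀ {v g}, g ∈ Lab m (dp v) → ¬ Anc i (ch g (hm v)) := fun {v g} a l => by
      obtain ⟨f, j, e, -, l2⟩ := anc_ch l
      exact k ⟨f, j, e, l2 m (dp_eq v ▸ a)⟩
    have : ∀ x ∈ (nx m G).K i, ∃ v w f g s, x = .b v w f g s ∧ i = (some (v, w, f, g), []) ∧
        G.H v w ∧ f ∈ Lab m (dp v) ∧ g ∈ Lab m (dp v) := by
      rintro x ⟨hx, l⟩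
      cases hx with
      | a a b => exact absurd l (no b)
      | b s a b c => exact ⟨_, _, _, _, _, rfl,
          (anc_new l).resolve_right fun l => l.elim (no b) (no c), a, b, c⟩
      | c a b c => exact absurd l (no b)
    intro x hx y hy
    obtain ⟨v, w, f, g, s, rfl, e, a, b, c⟩ := this x hx
    obtain ⟨v', w', f', g', s', rfl, e', -⟩ := this y hy
    rw [e] at e'
    cases e'
    exact .single ⟨hx, hy, Or.inl (.bb _ _ a b c)⟩

end Pool.Agent.H.MP_424fb5_gt
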