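import Mathlib
import Pool.Agent.H.MP_424fb5_gt.B

set_option autoImplicit false
open Set Relation

namespace Pool.Agent.H.MP_424fb5_gt

variable {m : ℕ} {G : Lv}

lemma Inv.nb (h : Inv m G) {y : Vx} (hy : NV m G y) : ∃ T : Finset Vx, T.card ≤ 3 ∧
    (∀ x, (nx m G).Ad x y → be x ∈ T) ∧ ∀ a ∈ T, ∀ b ∈ T, G.Ad a b := by
  classical
  cases hy with
  | @a v f a b =>
    refine ⟨{v}, by simp, fun x hx => Finset.mem_singleton.2 ?_, by
      simp only [Finset.mem_singleton]
      rintro _ rfl _ rfl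
      exact Or.inl (h.hr a)⟩
    rcases hx with k | k | k
    · cases k with
      | rf => rfl
      | ca a b => exact (h.ws a).1
    · cases k with
      | z a b => exact (h.ws a).2.1
    · cases k <;> rfl
  | @b v w f g s a b c =>
    refine ⟨{v, w}, Finset.card_le_two.trans (by norm_num), fun x hx => ?_, ?_⟩
    · rcases hx with k | k | k
      · cases k with
        | rf => cases s <;> simp [be]
        | bb t => cases t <;> simp [be]
      · cases k <;> simp [be]
      · cases k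
    · simp only [Finset.mem_insert, Finset.mem_singleton]
      rintro _ (rfl | rfl) _ (rfl | rfl)
      exacts [Or.inl (h.hr (h.hv a)), Or.inl a, Or.inl (h.hs a), Or.inl (h.hr (h.hv (h.hs a)))]
  | @c v w f n a b c =>
    obtain ⟨w1, w2, -, w4, w5, -⟩ := h.ws a
    refine ⟨{(wk G v w).2 (n - 1), (wk G v w).2 n, (wk G v w).2 (n + 1)}, Finset.card_le_three,
      fun x hx => ?_, ?_⟩
    · generalize e : (wk G v w).2 n = p at hx
      rcases hx with k | k | k
      · cases k with
        | rf => simp [be]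
        | ac => simp [be, w1]
        | cc => simp [be]
        | cd => simp [be]
      · cases k
      · cases k with
        | z => simp [be, w2]
    · have r : ∀ n, G.Ad ((wk G v w).2 n) ((wk G v w).2 n) := fun n => Or.inl (h.hr (h.wkK a n).1)
      have r1 : G.Ad ((wk G v w).2 (n - 1)) ((wk G v w).2 n) := by
        cases n
        exacts [r _, w4 _]
      have r2 : G.Ad ((wk G v w).2 (n - 1)) ((wk G v w).2 (n + 1)) := by
        cases n
        exacts [w4 _, w5 _]
      simp only [Finset.mem_insert, Finset.mem_singleton]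
      rintro _ (rfl | rfl | rfl) _ (rfl | rfl | rfl)
      exacts [r _, r1, r2, h.sy r1, r _, w4 _, h.sy r2, h.sy (w4 _), r _]

lemma Inv.oV (h : Inv m G) {x : Vx} (k : NV m G x) : ou x ∈ G.V := by
  cases k with
  | a a => exact a
  | b s a => cases s; exacts [h.hv a, h.hv (h.hs a)]
  | c a => exact (h.av a).1

lemma Inv.ohom (h : Inv m G) {x y : Vx} (k : (nx m G).Ad x y) : G.Ad (ou x) (ou y) := by
  have : ∀ {x y}, NA m G x y → G.Ad (ou x) (ou y) := fun k => by
    cases k with
    | l a => exact Or.inl (h.hr (h.hv a))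
    | r a => exact Or.inl (h.hr (h.hv (h.hs a)))
    | z a => exact Or.inr (Or.inl a)
  rcases k with k | k | k
  · cases k with
    | rf k => exact Or.inl (h.hr (h.oV k))
    | bb s t a =>
      cases s <;> cases t
      exacts [Or.inl (h.hr (h.hv a)), Or.inl a, Or.inl (h.hs a), Or.inl (h.hr (h.hv (h.hs a)))]
    | ac a => exact Or.inl (h.hr (h.av a).1)
    | ca a => exact Or.inl (h.hr (h.av a).1)
    | cc a => exact Or.inl (h.hr (h.av a).1)
    | cd a => exact Or.inl (h.hr (h.av a).1)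
  · exact this k
  · exact h.sy (this k)

lemma Inv.beK (h : Inv m G) {f : Lb} {j : Ix} (hf : f ∈ Lab m (dc j.1)) :
    be '' (nx m G).K (ch f j) = G.K j := by
  refine Subset.antisymm ?_ fun u hu => ?_
  · rintro _ ⟨x, ⟨hx, l⟩, rfl⟩
    cases hx with
    | a a => exact ⟨a, anc_ch' l⟩
    | @b v w _ _ s a =>
      have : Anc j (hm v) := ((anc_new l).resolve_left
        fun e => List.cons_ne_nil _ _ (Prod.mk.inj e).2).elim anc_ch' anc_ch'
      cases s
      exacts [⟨h.hv a, this⟩, ⟨h.hv (h.hs a), h.hh a ▸ this⟩]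
    | c a => exact ⟨(h.wkK a _).1, (anc_ch' l).trans (h.wkK a _).2⟩
  · obtain ⟨g, g1, g2⟩ := anc_lift hu.2 hf
    exact ⟨.a u g, ⟨.a hu.1 (dp_eq u ▸ g1), g2⟩, rfl⟩

lemma Inv.oR (h : Inv m G) {x : Vx} (k : NV m G x) {τ : Option Gm} (hτ : bl τ ≤ m) :
    CA τ (hm x).1 ↔ CA τ (hm (ou x)).1 := by
  cases k with
  | a => rfl
  | @b v w f g s a =>
    have e : hm (ou (.b v w f g s)) = hm v := by
      cases s
      exacts [rfl, (h.hh a).symm]
    rw [e]
    refine ⟨fun l => l.inv.resolve_left fun e => ?_, .st (v, w, f, g)⟩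
    have := h.lq (h.hv a)
    rw [e] at hτ
    exact absurd (show lv v + 1 ≤ m from hτ) (by omega)
  | c => rfl

lemma Inv.bR (h : Inv m G) {x : Vx} (k : NV m G x) {τ : Option Gm} (hτ : bl τ ≤ m)
    (l : CA τ (hm x).1) : CA τ (hm (be x)).1 := by
  have := (h.oR k hτ).1 l
  cases k with
  | a => exact this
  | b => exact this
  | c a => exact this.trans (h.wkK a _).2.ca

lemma Inv.force (h : Inv m G) {τ : Option Gm} (hτ : bl τ ≤ m) {L : Set Vx}
    (hL : L ⊆ (nx m G).V) (hc : Cn (nx m G).Ad L) {x y : Vx} (hx : x ∈ L) (hy : y ∈ L)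
    (x1 : ¬ CA τ (hm (be x)).1) (y1 : CA τ (hm y).1) :
    ∃ w ∈ G.V, (hm w).1 = τ ∧ G.K (hm w) ⊆ be '' L := by
  by_contra k
  have : ∀ v w f, ∃ n, G.A v w → (hm w).1 = τ →
      n ≤ (wk G v w).1 ∧ Vx.c v w f n ((wk G v w).2 n) ∉ L := fun v w f => by
    by_contra l
    push Not at l
    obtain ⟨a, b, -⟩ := l 0
    refine k ⟨w, (h.av a).2, b, fun u hu => ?_⟩
    obtain ⟨n, n1, n2⟩ := (h.ws a).2.2.2.2.2 u hu
    exact ⟨_, (l n).2.2 n1, n2⟩
  choose n0 hn using this
  let P : Vx → Prop := fun u => CA τ (hm u).1 ∨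
    ∃ v w f n p, u = .c v w f n p ∧ G.A v w ∧ (hm w).1 = τ ∧ n0 v w f < n
  have hA : ∀ {a b}, NA m G a b → a ∈ L → (P a ↔ P b) := fun {a b} l ha => by
    have e1 := (h.oR (h.nav l).1.1 hτ)
    have e2 := (h.oR (h.nav l).1.2 hτ)
    cases l with
    | l => simp only [P, e1, e2, ou, reduceCtorEq, false_and, exists_false, cond_false]
    | r => simp only [P, e1, e2, ou, reduceCtorEq, false_and, exists_false, cond_true]
    | @z v w f a b =>
      obtain ⟨s, γ, l, q1, q2⟩ := h.ah a
      constructor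
      · rintro (l | ⟨_, _, _, _, _, e, -, l, -⟩)
        · exact Or.inl (l.trans (h.anc a).ca)
        · cases e
          exact Or.inl (l ▸ .rf)
      · rintro (l | ⟨_, _, _, _, _, e, -⟩)
        · have l : CA τ (hm w).1 := l
          rw [q1] at l
          rcases l.inv with l | l
          · have q3 : (hm w).1 = τ := by rw [q1, l]
            exact Or.inr ⟨_, _, _, _, _, rfl, a, q3, lt_of_le_of_ne (hn v w f a q3).1
              fun e => (hn v w f a q3).2 (e ▸ ha)⟩
          · left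
            show CA τ (hm v).1
            rwa [q2]
        · cases e
  have := hc.ind P (fun a ha b hb l p => by
    rcases l with l | l | l
    · rcases p with p | ⟨v, w, f, n, p, rfl, q1, q2, q3⟩
      · exact Or.inl ((h.nhv l).2.1 ▸ p)
      cases l with
      | rf => exact Or.inr ⟨_, _, _, _, _, rfl, q1, q2, q3⟩
      | ca => exact absurd q3 (Nat.not_lt_zero _)
      | cc => exact Or.inr ⟨_, _, _, _, _, rfl, q1, q2, Nat.lt_succ_of_lt q3⟩
      | cd => exact Or.inr ⟨_, _, _, _, _, rfl, q1, q2, lt_of_le_of_ne (Nat.le_of_lt_succ q3)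
          fun e => (hn v w f q1 q2).2 (e ▸ hb)⟩
    · exact (hA l ha).1 p
    · exact (hA l hb).2 p) hy hx (Or.inl y1)
  rcases this with l | ⟨v, w, f, n, p, rfl, q1, q2, q3⟩
  · exact x1 (h.bR (hL hx) hτ l)
  · have := hL hx
    cases this
    obtain ⟨n, rfl⟩ := Nat.exists_eq_add_one_of_ne_zero (Nat.ne_zero_of_lt q3)
    exact x1 (q2 ▸ ((h.ws q1).2.2.1 n).2.ca)

def Lv.S (G : Lv) (v x : Vx) : Prop := G.H v x ∨ ∃ w, G.A v w ∧ CA (hm w).1 (hm x).1

lemma Inv.newR (h : Inv m G) {x : Vx} (k : NV m G x) {v w : Vx} {f g : Lb} (hv : lv v = m)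
    (l : CA (some (v, w, f, g)) (hm x).1) : (∃ s, x = .b v w f g s) ∧ G.H v w ∧
      f ∈ Lab m (dp v) ∧ g ∈ Lab m (dp v) := by
  have no : ∀ u ∈ G.V, ¬ CA (some (v, w, f, g)) (hm u).1 := fun u hu l => by
    have h1 := lv_eq u
    have h2 := h.lq hu
    have h3 : bl (some (v, w, f, g)) = lv v + 1 := rfl
    rcases l.le with e | e
    · rw [← e] at h1; omega
    · omega
  cases k with
  | @a u _ a => exact absurd l (no u a)
  | b s a b c =>
    rcases l.inv with e | l
    · cases e
      exact ⟨⟨s, rfl⟩, a, b, c⟩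
    · exact absurd l (no _ (h.hv a))
  | @c u _ _ _ a => exact absurd l (no u (h.av a).1)

lemma Inv.Sstep (h : Inv m G) {v x : Vx} (hx : NV m G x) (k : (nx m G).S v x) :
    G.S (ou v) (be x) := by
  have zz : ∀ {v w}, G.A v w → ∀ n, G.S v ((wk G v w).2 n) := fun a n => by
    cases n with
    | zero => rw [(h.ws a).1]; exact Or.inl (h.hr (h.av a).1)
    | succ n => exact Or.inr ⟨_, a, ((h.ws a).2.2.1 n).2.ca⟩
  rcases k with k | ⟨w, k, l⟩
  · cases k with
    | rf k =>
      cases k with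
      | a a => exact Or.inl (h.hr a)
      | b s a => exact Or.inl (h.hr (h.oV hx))
      | c a => exact zz a _
    | bb s t a =>
      cases s <;> cases t
      exacts [Or.inl (h.hr (h.hv a)), Or.inl a, Or.inl (h.hs a), Or.inl (h.hr (h.hv (h.hs a)))]
    | ac a => exact zz a _
    | ca a => exact Or.inl (h.hr (h.av a).1)
    | cc a => exact zz a _
    | cd a => exact zz a _
  · cases k with
    | l a =>
      obtain ⟨⟨s, rfl⟩, -⟩ := h.newR hx (h.lq (h.hv a)) l
      cases s
      exacts [Or.inl (h.hr (h.hv a)), Or.inl a]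
    | r a =>
      obtain ⟨⟨s, rfl⟩, -⟩ := h.newR hx (h.lq (h.hv a)) l
      cases s
      exacts [Or.inl (h.hs a), Or.inl (h.hr (h.hv (h.hs a)))]
    | @z v w f a =>
      have h1 := lv_eq w
      have h2 := h.lq (h.av a).2
      exact Or.inr ⟨w, a, h.bR hx (by omega) l⟩

lemma Inv.oc (h : Inv m G) {x y : Vx} (k : NH m G x y) (l : bl (hm x).1 ≤ m) : ou x = ou y := by
  cases k with
  | @bb v _ _ _ s t a =>
    have := h.lq (h.hv a)
    exact absurd (show lv v + 1 ≤ m from l) (by omega)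
  | _ => rfl

noncomputable def Lev : ℕ → Lv
  | 0 => ⟨range Vx.r, fun x y => x ∈ range Vx.r ∧ y ∈ range Vx.r, fun _ _ => False⟩
  | m + 1 => nx m (Lev m)

lemma inv (m : ℕ) : Inv m (Lev m) := by
  induction m with
  | succ m ih => exact ih.next
  | zero => exact
    { fin := finite_range _
      lq := by rintro _ ⟨s, rfl⟩; rfl
      hr := fun k => ⟨k, k⟩
      hs := And.symm
      hv := And.left
      hh := by rintro _ _ ⟨⟨s, rfl⟩, t, rfl⟩; rfl
      av := False.elim
      ah := False.elim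
      cv := fun x hx y hy => .single ⟨hx, hy, Or.inl ⟨hx, hy⟩⟩
      ck := fun j x hx y hy => .single ⟨hx, hy, Or.inl ⟨hx.1, hy.1⟩⟩ }

lemma Inv.adv (h : Inv m G) {x y : Vx} (k : G.Ad x y) : x ∈ G.V :=
  k.elim h.hv fun k => k.elim (fun k => (h.av k).1) fun k => (h.av k).2

noncomputable def sy : Sy Vx where
  V m := (Lev m).V
  Ad m := (Lev m).Ad
  β := be
  fin m := (inv m).fin
  mem := (inv _).adv
  rf k := Or.inl ((inv _).hr k)
  sy := (inv _).sy
  c2 {m x y z} h k := by
    obtain ⟨T, -, t1, t2⟩ := (inv m).nb ((inv (m + 1)).adv k)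
    exact t2 _ (t1 x h) _ (t1 z ((inv (m + 1)).sy k))

end Pool.Agent.H.MP_424fb5_gt
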