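import Mathlib
import Pool.Agent.H.MP_424fb5_gt.C

set_option autoImplicit false
open Set Relation Filter

namespace Pool.Agent.H.MP_424fb5_gt

lemma NV.ch {m : ℕ} {G : Lv} (h : Inv m G) {w : Vx} (k : NV m G w) (l : bl (hm w).1 ≤ m) :
    ∃ v ∈ G.V, ∃ f ∈ Lab m (dp v), hm w = ch f (hm v) := by
  cases k with
  | a a b => exact ⟨_, a, _, b, rfl⟩
  | @b v _ _ _ s a =>
    have := h.lq (h.hv a)
    exact absurd (show lv v + 1 ≤ m from l) (by omega)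
  | c a b => exact ⟨_, (h.av a).1, _, b, rfl⟩

def it (x : Vx) (α : ℕ → Lb) : ℕ → Vx
  | 0 => x
  | t + 1 => .a (it x α t) (α t)

lemma it_dp (x : Vx) (α : ℕ → Lb) (t : ℕ) : dp (it x α t) = dp x := by
  induction t with
  | zero => rfl
  | succ t ih => exact ih

lemma it_hm {x y : Vx} (h : hm x = hm y) (α : ℕ → Lb) (t : ℕ) :
    hm (it x α t) = hm (it y α t) := by
  induction t with
  | zero => exact h
  | succ t ih => exact congrArg (ch _) ih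

def TS (b : ℕ) (x : Vx) (α : ℕ → Lb) (n : ℕ) : Set Vx := (Lev (b + n)).K (hm (it x α n))

lemma TS_be {b : ℕ} {x : Vx} {α : ℕ → Lb} (h : ∀ t, α t ∈ Lab (b + t) (dp x)) (n : ℕ) :
    be '' TS b x α (n + 1) = TS b x α n :=
  (inv (b + n)).beK (by rw [dp_eq, it_dp]; exact h n)

variable {M : Type} [MetricSpace M] {q : Z sy → M}

lemma Re.ts (h : Re sy q) {b : ℕ} {x y : Vx} {α : ℕ → Lb} (hx : x ∈ (Lev b).V)
    (hy : y ∈ (Lev b).V) (e : hm x = hm y) (n : x ≠ y) (hα : ∀ t, α t ∈ Lab (b + t) (dp x)) :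
    IsCompact (th q b (TS b x α)) ∧ IsConnected (th q b (TS b x α)) ∧
      (th q b (TS b x α)).Nontrivial := by
  have h1 : ∀ n, TS b x α n ⊆ sy.V (b + n) := fun _ _ l => l.1
  obtain ⟨z, z1, z2⟩ := lift h1 (TS_be hα) (m := 1) (x := .a x (α 0)) ⟨.a hx (hα 0), .rf⟩
  obtain ⟨w, w1, w2⟩ := lift h1 (TS_be hα) (m := 1) (x := .a y (α 0))
    ⟨.a hy (dp_congr e ▸ hα 0), by
      show Anc (ch _ (hm x)) (ch _ (hm y))
      rw [e]
      exact .rf⟩
  refine ⟨h.cpt _ _, ⟨⟨_, z, z1, rfl⟩, h.th_pre h1 (TS_be hα) fun n => (inv _).ck _⟩,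
    _, ⟨z, z1, rfl⟩, _, ⟨w, w1, rfl⟩, fun k => ?_⟩
  have := h.ad k (b + 1)
  rw [z2, w2] at this
  generalize α 0 = f at this
  generalize e1 : Vx.a x f = x' at this
  generalize e2 : Vx.a y f = y' at this
  rcases this with k | k | k <;> cases k <;> cases e1 <;> cases e2
  exact n rfl

lemma share {b : ℕ} {x : Vx} {α β : ℕ → Lb} (hx : x ∈ (Lev b).V)
    (hα : ∀ t, α t ∈ Lab (b + t) (dp x)) (hβ : ∀ t, β t ∈ Lab (b + t) (dp x)) :
    ∃ y y' δ, y ∈ (Lev (b + 1)).V ∧ y' ∈ (Lev (b + 1)).V ∧ hm y = hm y' ∧ y ≠ y' ∧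
      (∀ t, δ t ∈ Lab (b + 1 + t) (dp y)) ∧ ∀ t, Anc (hm (it x α (t + 1))) (hm (it y δ t)) ∧
        Anc (hm (it x β (t + 1))) (hm (it y δ t)) := by
  have k := (inv b).hr hx
  refine ⟨.b x x (α 0) (β 0) false, .b x x (α 0) (β 0) true, fun t => .nd (α (t + 1)) (β (t + 1)),
    .b _ k (hα 0) (hβ 0), .b _ k (hα 0) (hβ 0), rfl, by simp, fun t => ?_, fun t => ?_⟩
  · rw [show b + 1 + t = b + (t + 1) by omega]
    exact mem_image2_of_mem (hα _) (hβ _)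
  have : ∃ l, hm (it (.b x x (α 0) (β 0) false) (fun t => .nd (α (t + 1)) (β (t + 1))) t) =
      (some (x, x, α 0, β 0), l) ∧ hm (it x α (t + 1)) = pr false (x, x, α 0, β 0) l ∧
      hm (it x β (t + 1)) = pr true (x, x, α 0, β 0) l := by
    induction t with
    | zero => exact ⟨[], rfl, rfl, rfl⟩
    | succ t ih =>
      obtain ⟨l, e1, e2, e3⟩ := ih
      exact ⟨.nd (α (t + 1)) (β (t + 1)) :: l, congrArg (ch _) e1, congrArg (ch _) e2,
        congrArg (ch _) e3⟩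
  obtain ⟨l, e1, e2, e3⟩ := this
  rw [e1, e2, e3]
  exact ⟨.st _ _ _ .rf, .st _ _ _ .rf⟩

lemma zR (z : Z sy) {τ : Option Gm} {k m : ℕ} (h1 : bl τ ≤ k) (h2 : k ≤ m)
    (l : CA τ (hm (z.1 m)).1) : CA τ (hm (z.1 k)).1 := by
  induction m, h2 using Nat.le_induction with
  | base => exact l
  | succ m h ih => exact ih ((z.2 m).2 ▸ (inv m).bR (z.2 (m + 1)).1 (h1.trans h) l)

def Out (q : Z sy → M) (L : Set M) (b : ℕ) (x : Vx) (α : ℕ → Lb) : Prop :=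
  x ∈ (Lev b).V ∧ (∀ t, α t ∈ Lab (b + t) (dp x)) ∧ ∀ n, TS b x α n ⊆ pj q L (b + n)

lemma Re.case1 (h : Re sy q) {L : Set M} (hL : IsPreconnected L) {τ : Option Gm} {k : ℕ}
    (hk : bl τ ≤ k) {z : Z sy} (z1 : q z ∈ L) (z2 : ¬ CA τ (hm (z.1 k)).1)
    (hw : ∀ m, bl τ ≤ m → ∃ w : Z sy, q w ∈ L ∧ CA τ (hm (w.1 m)).1) :
    ∃ b x α, Out q L b x α := by
  let J : ℕ → Set Ix := fun t => {i | (∃ w ∈ (Lev (bl τ + t)).V, hm w = i ∧ i.1 = τ) ∧
    (Lev (bl τ + t)).K i ⊆ pj q L (bl τ + t)}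
  have sb : ∀ m, be '' pj q L (m + 1) ⊆ pj q L m := by
    rintro m _ ⟨x, hx, rfl⟩
    exact pj_it (t := 1) hx
  have j1 : ∀ t, ∀ i ∈ J (t + 1), ∃ f ∈ Lab (bl τ + t) (dc τ),
      i = ch f (i.1, i.2.tail) ∧ (i.1, i.2.tail) ∈ J t := by
    rintro t _ ⟨⟨w, w1, rfl, w2⟩, w3⟩
    obtain ⟨v, v1, f, f1, e⟩ := NV.ch (inv (bl τ + t)) w1 (by rw [w2]; omega)
    rw [e] at w2 w3 ⊢
    rw [← dp_eq] at f1
    refine ⟨f, (show (hm v).1 = τ from w2) ▸ f1, rfl, ⟨v, v1, rfl, w2⟩, ?_⟩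
    show (Lev _).K (hm v) ⊆ _
    rw [← (inv (bl τ + t)).beK f1]
    exact (image_mono w3).trans (sb _)
  have j2 : ∀ e t, (J (t + e)).Nonempty → (J t).Nonempty := fun e => by
    induction e with
    | zero => exact fun _ l => l
    | succ e ih =>
      rintro t ⟨i, hi⟩
      obtain ⟨-, -, -, l⟩ := j1 _ i hi
      exact ih t ⟨_, l⟩
  obtain ⟨p, hp⟩ := konig (J := J) (fun i => (i.1, i.2.tail))
    (fun t => ((inv (bl τ + t)).fin.image hm).subset fun i ⟨⟨w, w1, w2, _⟩, _⟩ => ⟨w, w1, w2⟩)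
    (fun t => j2 k t (by
      obtain ⟨w, w1, w2⟩ := hw (bl τ + (t + k) + 1) (by omega)
      obtain ⟨u, u1, u2, u3⟩ := (inv (bl τ + (t + k))).force (Nat.le_add_right _ _)
        (pj_sub (m := bl τ + (t + k) + 1))
        (h.pj_cn hL (bl τ + (t + k) + 1)) ⟨z, z1, rfl⟩ ⟨w, w1, rfl⟩
        (fun l => z2 (zR z hk (show k ≤ bl τ + (t + k) by omega) ((z.2 _).2 ▸ l))) w2
      exact ⟨hm u, ⟨u, u1, rfl, u2⟩, u3.trans (sb _)⟩))
    fun t i hi => let ⟨_, _, _, l⟩ := j1 t i hi; l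
  choose α a1 a2 a3 using fun t => j1 t _ (hp (t + 1)).1
  obtain ⟨x, x1, x2, x3⟩ := (hp 0).1.1
  have : ∀ t, hm (it x α t) = p t := fun t => by
    induction t with
    | zero => exact x2
    | succ t ih => rw [a2 t, (hp t).2, ← ih]; rfl
  refine ⟨bl τ, x, α, x1, fun t => ?_, fun n => ?_⟩
  · rw [← dp_eq, x2, x3]
    exact a1 t
  · rw [TS, this]
    exact (hp n).1.2

lemma alive {k m : ℕ} (h : k ≤ m) {w : Vx} (hw : w ∈ (Lev m).V) (l : bl (hm w).1 ≤ k) :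
    ∃ u ∈ (Lev k).V, (hm u).1 = (hm w).1 := by
  induction m, h using Nat.le_induction generalizing w with
  | base => exact ⟨w, hw, rfl⟩
  | succ m h ih =>
    obtain ⟨v, v1, f, -, e⟩ := NV.ch (inv m) hw (l.trans h)
    rw [e] at l ⊢
    exact ih v1 l

lemma ouV (n t : ℕ) {u : Vx} (h : u ∈ (Lev (n + t)).V) : ou^[t] u ∈ (Lev n).V ∧
    ∀ τ, bl τ ≤ n → (CA τ (hm u).1 ↔ CA τ (hm (ou^[t] u)).1) := by
  induction t generalizing u with
  | zero => exact ⟨h, fun _ _ => Iff.rfl⟩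
  | succ t ih =>
    have := ih ((inv _).oV h)
    exact ⟨this.1, fun τ l => ((inv _).oR h (l.trans (Nat.le_add_right _ _))).trans (this.2 τ l)⟩

lemma ouA (n t : ℕ) {x y : Vx} (h : (Lev (n + t)).Ad x y) : (Lev n).Ad (ou^[t] x) (ou^[t] y) := by
  induction t generalizing x y with
  | zero => exact h
  | succ t ih => exact ih ((inv _).ohom h)

lemma ouS (z : Z sy) (n t : ℕ) {v : Vx} (h : (Lev (n + t)).S v (z.1 (n + t))) :
    (Lev n).S (ou^[t] v) (z.1 n) := by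
  induction t generalizing v with
  | zero => exact h
  | succ t ih => exact ih ((z.2 (n + t)).2 ▸ (inv _).Sstep (z.2 (n + t + 1)).1 h)

lemma V_be (n : ℕ) : be '' (Lev (n + 1)).V = (Lev n).V := by
  refine Subset.antisymm ?_ fun v hv => ?_
  · rintro _ ⟨x, hx, rfl⟩
    exact sy.mem (sy.hom (sy.rf hx))
  · obtain ⟨f, hf⟩ := Lab_ne n (dp v)
    exact ⟨.a v f, .a hv hf, rfl⟩

lemma liftV {m : ℕ} {v : Vx} (h : v ∈ (Lev m).V) : ∃ z : Z sy, z.1 m = v := by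
  obtain ⟨z, -, e⟩ := lift (s := sy) (b := 0) (S := fun n => (Lev n).V)
    (fun n => by rw [zero_add]; exact subset_rfl) V_be h
  exact ⟨z, zero_add m ▸ e⟩

lemma born {τ : Option Gm} {n : ℕ} (h : bl τ = n + 1) {z w : Z sy} (h1 : CA τ (hm (z.1 (n + 1))).1)
    (h2 : CA τ (hm (w.1 (n + 1))).1) : sy.Ad (n + 1) (z.1 (n + 1)) (w.1 (n + 1)) := by
  obtain _ | ⟨v, u, f, g⟩ := τ
  · cases h
  obtain ⟨⟨s, e⟩, a, b, c⟩ := (inv n).newR (z.2 (n + 1)).1 (Nat.succ_injective h) h1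
  obtain ⟨⟨t, e'⟩, -⟩ := (inv n).newR (w.2 (n + 1)).1 (Nat.succ_injective h) h2
  rw [e, e']
  exact Or.inl (.bb _ _ a b c)

lemma Re.beta (h : Re sy q) {L : Set M} (hL : IsPreconnected L) (hn : L.Nontrivial) :
    ∃ b x α, Out q L b x α := by
  by_contra hc
  let Miss : Option Gm → ℕ → Prop := fun τ m => ∀ z : Z sy, q z ∈ L → ¬ CA τ (hm (z.1 m)).1
  let Ins : Option Gm → Prop := fun τ => ∀ m, bl τ ≤ m → ∀ z : Z sy, q z ∈ L → CA τ (hm (z.1 m)).1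
  have ev : ∀ n, ∀ᶠ m in atTop, ∀ u ∈ (Lev n).V, Ins (hm u).1 ∨ Miss (hm u).1 m := fun n => by
    refine (eventually_all_finite (inv n).fin).2 fun u _ => ?_
    generalize (hm u).1 = τ
    by_cases k : Ins τ
    · exact Eventually.of_forall fun _ => Or.inl k
    simp only [Ins, not_forall] at k
    obtain ⟨k, k1, z, z1, z2⟩ := k
    by_contra l
    refine hc (h.case1 hL k1 z1 z2 fun m hm => ?_)
    by_contra l2
    refine l ((eventually_ge_atTop m).mono fun m' hm' => Or.inr fun w w1 w2 => ?_)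
    exact l2 ⟨w, w1, zR w hm hm' w2⟩
  obtain ⟨a, ha, b, hb, ab⟩ := hn
  obtain ⟨z, rfl⟩ := h.sur a
  obtain ⟨z', rfl⟩ := h.sur b
  obtain ⟨k, hk⟩ : ∃ k, ¬ sy.Ad k (z.1 k) (z'.1 k) := not_forall.1 fun l => ab (h.eq l)
  obtain ⟨m, m1, m2⟩ := ((ev (k + 1)).and (eventually_ge_atTop (k + 1))).exists
  obtain ⟨m', m3, m4⟩ := ((ev (m + 1)).and (eventually_ge_atTop (m + 1))).exists
  obtain ⟨t, rfl⟩ := Nat.exists_eq_add_of_le m4
  let Y := ou^[t] '' pj q L (m + 1 + t)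
  have y0 : ∀ y ∈ Y, y ∈ (Lev (m + 1)).V := by
    rintro _ ⟨u, hu, rfl⟩
    exact (ouV _ _ (pj_sub hu)).1
  have y1 : ∀ y ∈ Y, bl (hm y).1 ≤ m + 1 := fun y hy => by
    have := lv_eq y
    have := (inv _).lq (y0 y hy)
    omega
  have y2 : ∀ y ∈ Y, Ins (hm y).1 := fun y hy => by
    refine (m3 y (y0 y hy)).resolve_right fun l => ?_
    obtain ⟨_, ⟨w, w1, rfl⟩, rfl⟩ := id hy
    exact l w w1 (((ouV _ _ (w.2 _).1).2 _ (y1 _ hy)).2 .rf)
  have y3 : ∀ τ, bl τ ≤ m + 1 → Ins τ → ∀ y ∈ Y, CA τ (hm y).1 := by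
    rintro τ l1 l2 _ ⟨_, ⟨w, w1, rfl⟩, rfl⟩
    exact ((ouV _ _ (w.2 _).1).2 _ l1).1 (l2 _ (by omega) w w1)
  have y4 : ∀ y ∈ Y, bl (hm y).1 ≤ m := fun y hy => by
    by_contra l
    have e : bl (hm y).1 = m + 1 := by have := y1 y hy; omega
    exact hk (Z.down (by omega) (born e (y2 y hy _ e.le z ha) (y2 y hy _ e.le z' hb)))
  have y5 : ∀ a ∈ Y, ∀ b ∈ Y, ¬ (Lev (m + 1)).A a b := fun a ha b hb l => by
    have h1 := (inv _).dpa l
    rw [← dp_eq, ← dp_eq] at h1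
    rcases (y3 _ (y1 b hb) (y2 b hb) a ha).le with e | e
    · rw [e] at h1; omega
    · omega
  have zy : ou^[t] (z.1 (m + 1 + t)) ∈ Y := ⟨_, ⟨z, ha, rfl⟩, rfl⟩
  obtain ⟨zv, hv⟩ := liftV ((inv m).oV (y0 _ zy))
  have key : ∀ w : Z sy, q w ∈ L → sy.Ad (k + 1) (zv.1 (k + 1)) (w.1 (k + 1)) := fun w hw => by
    have e : ou (ou^[t] (w.1 (m + 1 + t))) = zv.1 m :=
      ((h.pj_cn hL _).image ou^[t] fun _ _ => ouA (m + 1) t).ind (fun y => ou y = zv.1 m)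
        (fun a ha b hb l p => by
          rcases l with l | l | l
          · rw [← p, (inv m).oc l (y4 a ha)]
          · exact absurd l (y5 a ha b hb)
          · exact absurd l (y5 b hb a ha)) zy ⟨_, ⟨w, hw, rfl⟩, rfl⟩ hv.symm
    have s := ouS w m 1 (ouS w (m + 1) t (Or.inl ((inv _).hr (w.2 _).1)))
    rw [Function.iterate_one, e] at s
    rcases s with s | ⟨u, u1, u2⟩
    · exact Z.down m2 (Or.inl s)
    have b1 : bl (hm u).1 ≤ m := by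
      have := lv_eq u
      have := (inv _).lq ((inv m).av u1).2
      omega
    have b2 : ¬ Ins (hm u).1 := fun l => by
      have h1 := (inv _).dpa u1
      have h2 := ((inv m).oR (y0 _ zy) b1).1 (y3 _ (by omega) l _ zy)
      rw [← hv] at h2
      rw [← dp_eq, ← dp_eq] at h1
      rcases h2.le with e | e
      · rw [e] at h1; omega
      · omega
    have b3 : k + 1 < bl (hm u).1 := by
      by_contra l
      obtain ⟨u', l1, l2⟩ := alive m2 ((inv m).av u1).2 (not_lt.1 l)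
      have := m1 u' l1
      rw [l2] at this
      exact this.resolve_left b2 w hw u2
    obtain ⟨n, e⟩ := Nat.exists_eq_add_one_of_ne_zero (Nat.ne_zero_of_lt b3)
    obtain ⟨zu, hu⟩ := liftV ((inv m).av u1).2
    have c1 : sy.Ad m (zv.1 m) (zu.1 m) := Or.inr (Or.inl (hu ▸ u1))
    have c2 := sy.c2 (Z.down (show n + 1 ≤ m by omega) c1)
      (born e (zR zu e.le (show n + 1 ≤ m by omega) (hu ▸ .rf)) (zR w e.le (by omega) u2))
    rw [(zv.2 n).2, (w.2 n).2] at c2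
    exact Z.down (by omega) c2
  have := sy.c2 (sy.sy (key z ha)) (key z' hb)
  rw [(z.2 k).2, (z'.2 k).2] at this
  exact hk this

end Pool.Agent.H.MP_424fb5_gt
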