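import Mathlib
import Pool.Agent.H.MP_424fb5_gt.D

set_option autoImplicit false
open Set Relation Filter

namespace Pool.Agent.H.MP_424fb5_gt

lemma anc_fin (d : ℕ) (j : Ix) (h : dc j.1 = d) :
    ∃ F : Finset Ix, F.card ≤ 2 ^ d ∧ ∀ i : Ix, i.1 = none → Anc i j → i ∈ F := by
  classical
  induction d generalizing j with
  | zero =>
    refine ⟨{j}, by simp, fun i _ k => ?_⟩
    cases k with
    | rf => exact Finset.mem_singleton_self _
    | st => cases h
  | succ d ih =>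
    obtain ⟨_ | γ, l⟩ := j
    · cases h
    have e : dc (hm γ.1).1 = d := Nat.succ_injective ((dc_some γ).symm.trans h)
    obtain ⟨F, f1, f2⟩ := ih (pr false γ l) e
    obtain ⟨G, g1, g2⟩ := ih (pr true γ l) e
    refine ⟨F ∪ G, (Finset.card_union_le _ _).trans (by omega), fun i hi k => ?_⟩
    cases k with
    | rf => cases hi
    | st s _ _ k =>
      cases s
      exacts [Finset.mem_union_left _ (f2 i hi k), Finset.mem_union_right _ (g2 i hi k)]

lemma dodge (z : Z sy) (m : ℕ) (j : Ix) : ∃ f ∈ Lab m 0, j.1 = none → ∀ w : Z sy,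
    sy.Ad (m + 2) (w.1 (m + 2)) (z.1 (m + 2)) → ¬ Anc (ch f j) (hm (w.1 (m + 1))) := by
  classical
  obtain ⟨T, t1, t2, t3⟩ := (inv (m + 1)).nb (z.2 (m + 2)).1
  choose F f1 f2 using fun u : Vx => anc_fin _ _ (dp_eq u)
  have c1 : (T.biUnion F).card ≤ 3 * 2 ^ (m + 1) := by
    refine (Finset.card_biUnion_le_card_mul _ _ (2 ^ (m + 1)) fun u hu => (f1 u).trans
      (Nat.pow_le_pow_right two_pos ?_)).trans (Nat.mul_le_mul_right _ t1)
    exact (dp_le u).trans ((inv _).lq ((inv _).adv (t3 u hu u hu))).le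
  obtain ⟨_, i1, i2⟩ := Finset.exists_mem_notMem_of_card_lt_card (s := T.biUnion F)
    (t := (Finset.range (3 * 2 ^ (m + 1) + 1)).image fun n => ch (.lf n) j) (by
      rw [Finset.card_image_of_injective (f := fun n => ch (.lf n) j) _ fun a b e =>
        Lb.lf.inj (List.cons.inj (Prod.mk.inj e).2).1, Finset.card_range]
      omega)
  obtain ⟨n, n1, rfl⟩ := Finset.mem_image.1 i1
  refine ⟨.lf n, ⟨n, Nat.le_of_lt_succ (Finset.mem_range.1 n1), rfl⟩, fun hj w h k => ?_⟩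
  exact i2 (Finset.mem_biUnion.2 ⟨_, (w.2 (m + 1)).2 ▸ t2 _ h, f2 _ _ hj k⟩)

theorem main : ∃ (X : Type) (_ : MetricSpace X) (_ : CompactSpace X) (_ : ConnectedSpace X),
    (∀ G : Set (Set X), ¬ G.Countable →
      (∀ K ∈ G, IsCompact K ∧ IsConnected K ∧ K.Nontrivial) →
      ∃ A ∈ G, ∃ B ∈ G, A ≠ B ∧
        ∃ C : Set X, C ⊆ A ∩ B ∧ IsCompact C ∧ IsConnected C ∧ C.Nontrivial) ∧
    ∀ S : Set X, S.Countable →
      ∃ K : Set X, IsCompact K ∧ IsConnected K ∧ K.Nontrivial ∧ ¬ (S ∩ K).Nonempty := by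
  obtain ⟨M, _, q, h⟩ := exists_re sy
  have u : th q 0 (fun n => (Lev (0 + n)).V) = univ := eq_univ_of_forall fun x => by
    obtain ⟨z, rfl⟩ := h.sur x
    exact ⟨z, fun n => (z.2 _).1, rfl⟩
  obtain ⟨z0, -⟩ := liftV (m := 0) ⟨true, rfl⟩
  have : Nonempty M := ⟨q z0⟩
  refine ⟨M, inferInstance, ⟨u ▸ h.cpt _ _⟩, { toPreconnectedSpace := ⟨u ▸ h.th_pre
    (fun _ => subset_rfl) (fun n => V_be _) fun n => (inv _).cv⟩, toNonempty := this },
    fun G hG k => ?_, fun S hS => ?_⟩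
  · choose b x α o using fun A : G => h.beta (k A.1 A.2).2.1.2 (k A.1 A.2).2.2
    obtain ⟨A, B, e, n⟩ : ∃ A B : G, x A = x B ∧ A ≠ B := by
      by_contra l
      push Not at l
      refine hG (countable_coe_iff.1 (countable_univ_iff.1 (MapsTo.countable_of_injOn (f := x)
        (t := ⋃ m, (Lev m).V) (fun A _ => mem_iUnion.2 ⟨_, (o A).1⟩)
        (fun A _ B _ e => l A B e) (countable_iUnion fun m => (inv m).fin.countable))))
    obtain ⟨a1, a2, a3⟩ := o A
    obtain ⟨b1, b2, b3⟩ := o B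
    have e2 : b A = b B := by rw [← (inv _).lq a1, ← (inv _).lq b1, e]
    rw [← e, ← e2] at b2 b3
    obtain ⟨y, y', δ, y1, y2, y3, y4, y5, y6⟩ := share a1 a2 b2
    refine ⟨A, A.2, B, B.2, fun l => n (Subtype.ext l), _, subset_inter
      (h.th_sub (k A.1 A.2).1.isClosed fun t u hu => ?_)
      (h.th_sub (k B.1 B.2).1.isClosed fun t u hu => ?_), h.ts y1 y2 y3 y4 y5⟩
    · rw [TS, show b A + 1 + t = b A + (t + 1) by omega] at *
      exact a3 (t + 1) ⟨hu.1, (y6 t).1.trans hu.2⟩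
    · rw [TS, show b A + 1 + t = b A + (t + 1) by omega] at *
      exact b3 (t + 1) ⟨hu.1, (y6 t).2.trans hu.2⟩
  · obtain ⟨s, hs⟩ := countable_iff_exists_subset_range.1 hS
    choose z hz using fun t => h.sur (s t)
    choose φ φ1 φ2 using fun t => dodge (z t) (0 + t)
    let x : ℕ → Vx := fun t => Nat.rec (.r false) (fun t x => .a x (φ t (hm x))) t
    have e : ∀ t, it (.r false) (fun t => φ t (hm (x t))) t = x t ∧ (hm (x t)).1 = none :=
      fun t => by
        induction t with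
        | zero => exact ⟨rfl, rfl⟩
        | succ t ih => exact ⟨congrArg (Vx.a · _) ih.1, ih.2⟩
    obtain ⟨k1, k2, k3⟩ := h.ts (b := 0) (x := .r false) (y := .r true)
      (α := fun t => φ t (hm (x t))) ⟨_, rfl⟩ ⟨_, rfl⟩ rfl (by simp) fun t => φ1 t _
    refine ⟨_, k1, k2, k3, ?_⟩
    rintro ⟨_, h1, w, w1, rfl⟩
    obtain ⟨t, ht⟩ := hs h1
    refine φ2 t (hm (x t)) (e t).2 w (h.ad (ht.symm.trans (hz t).symm) _) ?_
    have := (w1 (t + 1)).2
    rwa [(e (t + 1)).1] at this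

end Pool.Agent.H.MP_424fb5_gt
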